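import Pool.Agent.MP_19ffc6_ag.Residual.Moves

set_option autoImplicit false

open MvPolynomial Relation Filter

namespace Pool.Agent.MP_19ffc6_ag.Residual

/-- Paths of a prescribed length. -/
def Steps {X : Type*} (r : X → X → Prop) : ℕ → X → X → Prop
  | 0, x, y => x = y
  | k + 1, x, y => ∃ z, r x z ∧ Steps r k z y

theorem steps_of_reflTransGen {X : Type*} {r : X → X → Prop} {x y : X}
    (h : ReflTransGen r x y) : ∃ k, Steps r k x y := by
  induction h using ReflTransGen.head_induction_on with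
  | refl => exact ⟨0, rfl⟩
  | head h1 _ ih =>
    obtain ⟨k, hk⟩ := ih
    exact ⟨k + 1, _, h1, hk⟩

theorem steps_of_transGen {X : Type*} {r : X → X → Prop} {x y : X}
    (h : TransGen r x y) : ∃ k, Steps r (k + 1) x y := by
  obtain ⟨z, h1, h2⟩ := TransGen.head'_iff.1 h
  obtain ⟨k, hk⟩ := steps_of_reflTransGen h2
  exact ⟨k, z, h1, hk⟩

theorem exists_seq {X : Type*} (r : X → X → Prop) (g : X → ℕ) (P : ℕ → X → Prop)
    (h : ∀ m x, P m x → ∃ y, P (m + 1) y ∧ TransGen (fun a b => r a b ∧ m ≤ g a) x y)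
    (x0 : X) (h0 : P 0 x0) :
    ∃ s : ℕ → X, s 0 = x0 ∧ (∀ k, r (s k) (s (k + 1))) ∧ Tendsto (fun k => g (s k)) atTop atTop := by
  let Q : X × ℕ × ℕ → Prop := fun t =>
    ∃ y, P (t.2.1 + 1) y ∧ Steps (fun a b => r a b ∧ t.2.1 ≤ g a) (t.2.2 + 1) t.1 y
  have start : ∀ m x, P m x → ∃ l, Q (x, m, l) := fun m x hx => by
    obtain ⟨y, hy, ht⟩ := h m x hx
    obtain ⟨k, hk⟩ := steps_of_transGen ht
    exact ⟨k, y, hy, hk⟩
  have next : ∀ t : {t // Q t}, ∃ t' : {t // Q t}, r t.1.1 t'.1.1 ∧ t.1.2.1 ≤ g t.1.1 ∧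
      ((t'.1.2.1 = t.1.2.1 ∧ t'.1.2.2 < t.1.2.2) ∨ t'.1.2.1 = t.1.2.1 + 1) := by
    rintro ⟨⟨x, m, l⟩, y, hy, z, ⟨hz1, hz2⟩, hz3⟩
    rcases l with _ | l
    · have hzy : z = y := hz3
      subst hzy
      obtain ⟨l', hl'⟩ := start _ _ hy
      exact ⟨⟨(z, m + 1, l'), hl'⟩, hz1, hz2, Or.inr rfl⟩
    · exact ⟨⟨(z, m, l), y, hy, hz3⟩, hz1, hz2, Or.inl ⟨rfl, Nat.lt_succ_self l⟩⟩
  choose nx hnx using next
  obtain ⟨l0, hl0⟩ := start 0 x0 h0
  let u : ℕ → {t // Q t} := fun k => nx^[k] ⟨(x0, 0, l0), hl0⟩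
  have hu : ∀ k, u (k + 1) = nx (u k) := fun k => Function.iterate_succ_apply' _ _ _
  have hmono : Monotone fun k => (u k).1.2.1 := by
    refine monotone_nat_of_le_succ fun k => ?_
    rw [hu]
    rcases (hnx (u k)).2.2 with h1 | h1 <;> omega
  have hgrow : ∀ l k, (u k).1.2.2 ≤ l → ∃ k', (u k').1.2.1 = (u k).1.2.1 + 1 := by
    intro l
    induction l with
    | zero =>
      intro k hk
      refine ⟨k + 1, ?_⟩
      rw [hu]
      rcases (hnx (u k)).2.2 with h1 | h1 <;> omega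
    | succ l ih =>
      intro k hk
      rcases (hnx (u k)).2.2 with h1 | h1
      · rw [← hu] at h1
        obtain ⟨k', hk'⟩ := ih (k + 1) (by omega)
        exact ⟨k', by omega⟩
      · exact ⟨k + 1, by rw [hu]; exact h1⟩
  have hunb : ∀ m, ∃ k, m ≤ (u k).1.2.1 := by
    intro m
    induction m with
    | zero => exact ⟨0, Nat.zero_le _⟩
    | succ m ih =>
      obtain ⟨k, hk⟩ := ih
      obtain ⟨k', hk'⟩ := hgrow _ k le_rfl
      exact ⟨k', by omega⟩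
  refine ⟨fun k => (u k).1.1, rfl, fun k => ?_, ?_⟩
  · simp only [hu]; exact (hnx (u k)).1
  · exact tendsto_atTop_mono (fun k => (hnx (u k)).2.1) (hmono.tendsto_atTop_atTop hunb)

variable (K : Type*) [Field K] (n : ℕ) (p f : ℕ)

/-- Every stage described by the first data leads to a stage described by the second data through
stages of residual order at least `L`. -/
def Can (L : ℕ) (v0 v1 v2 v3 w0 w1 w2 w3 : ℤ × ZMod p) : Prop :=
  ∀ S : Stage K n, Rel p f S v0 v1 v2 v3 →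
    ∃ S', ReflTransGen (Mv (p ^ (f + 1)) L) S S' ∧ Rel p f S' w0 w1 w2 w3

variable {K n p f}

theorem Can.trans {L : ℕ} {v0 v1 v2 v3 w0 w1 w2 w3 u0 u1 u2 u3 : ℤ × ZMod p}
    (h1 : Can K n p f L v0 v1 v2 v3 w0 w1 w2 w3) (h2 : Can K n p f L w0 w1 w2 w3 u0 u1 u2 u3) :
    Can K n p f L v0 v1 v2 v3 u0 u1 u2 u3 := fun S hS => by
  obtain ⟨S', a1, a2⟩ := h1 S hS
  obtain ⟨S'', b1, b2⟩ := h2 S' a2
  exact ⟨S'', a1.trans b1, b2⟩

variable [hp : Fact p.Prime] [CharP K p] [PerfectRing K p]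

theorem rep0 {L : ℕ} (hL : p ^ (f + 1) ≤ L) (N : ℕ) {c0 c1 c2 c3 c : ℤ} {α0 α1 α2 α3 α : ZMod p}
    (hg : ∀ k : ℕ, k < N → Good L (c0 + k * (c1 + c2 + c3)) c1 c2 c3)
    (hc : c = c0 + N * (c1 + c2 + c3)) (hα : α = α0 + N * (α1 + α2 + α3)) :
    Can K n p f L (c0, α0) (c1, α1) (c2, α2) (c3, α3) (c, α) (c1, α1) (c2, α2) (c3, α3) := by
  subst hc hα
  induction N with
  | zero => intro S hS; exact ⟨S, ReflTransGen.refl, by simpa using hS⟩
  | succ N ih =>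
    intro S hS
    obtain ⟨S', a1, a2⟩ := ih (fun k hk => hg k (by omega)) S hS
    obtain ⟨S'', b1, b2⟩ := a2.move hL (hg N (by omega))
    refine ⟨S'', a1.tail b1, ?_⟩
    convert b2 using 2 <;> push_cast <;> ring

theorem rep1 {L : ℕ} (hL : p ^ (f + 1) ≤ L) (N : ℕ) {c0 c1 c2 c3 c : ℤ} {α0 α1 α2 α3 α : ZMod p}
    (hg : ∀ k : ℕ, k < N → Good L (c1 + k * (c0 + c2 + c3)) c0 c2 c3)
    (hc : c = c1 + N * (c0 + c2 + c3)) (hα : α = α1 + N * (α0 + α2 + α3)) :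
    Can K n p f L (c0, α0) (c1, α1) (c2, α2) (c3, α3) (c0, α0) (c, α) (c2, α2) (c3, α3) :=
  fun S hS => by
    obtain ⟨S', a1, a2⟩ := rep0 hL N hg hc hα S hS.swap01
    exact ⟨S', a1, a2.swap01⟩

theorem rep2 {L : ℕ} (hL : p ^ (f + 1) ≤ L) (N : ℕ) {c0 c1 c2 c3 c : ℤ} {α0 α1 α2 α3 α : ZMod p}
    (hg : ∀ k : ℕ, k < N → Good L (c2 + k * (c0 + c1 + c3)) c0 c1 c3)
    (hc : c = c2 + N * (c0 + c1 + c3)) (hα : α = α2 + N * (α0 + α1 + α3)) :
    Can K n p f L (c0, α0) (c1, α1) (c2, α2) (c3, α3) (c0, α0) (c1, α1) (c, α) (c3, α3) :=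
  fun S hS => by
    obtain ⟨S', a1, a2⟩ := rep0 hL N hg hc hα S hS.swap12.swap01
    exact ⟨S', a1, a2.swap01.swap12⟩

theorem rep3 {L : ℕ} (hL : p ^ (f + 1) ≤ L) (N : ℕ) {c0 c1 c2 c3 c : ℤ} {α0 α1 α2 α3 α : ZMod p}
    (hg : ∀ k : ℕ, k < N → Good L (c3 + k * (c0 + c1 + c2)) c0 c1 c2)
    (hc : c = c3 + N * (c0 + c1 + c2)) (hα : α = α3 + N * (α0 + α1 + α2)) :
    Can K n p f L (c0, α0) (c1, α1) (c2, α2) (c3, α3) (c0, α0) (c1, α1) (c2, α2) (c, α) :=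
  fun S hS => by
    obtain ⟨S', a1, a2⟩ := rep0 hL N hg hc hα S hS.swap23.swap12.swap01
    exact ⟨S', a1, a2.swap01.swap12.swap23⟩

/-- Chart of the second variable, translating the fourth. -/
theorem kill13 (hf : 1 ≤ f) {L : ℕ} (hL : p ^ (f + 1) ≤ L) {c0 c1 c2 c3 c : ℤ}
    {α0 α1 α2 α : ZMod p} (hg : Good L c1 c3 c0 c2) (hc : c = c1 + (c3 + c0 + c2))
    (hα : α = α1 + (α0 + α2)) (hd : ¬ ((p : ℤ) ∣ c ∧ (p : ℤ) ∣ c0 ∧ (p : ℤ) ∣ c2)) :
    Can K n p f L (c0, α0) (c1, α1) (c2, α2) (c3, 0) (c0, α0) (c, α) (c2, α2) (0, 0) :=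
  fun S hS => by
    subst hc hα
    obtain ⟨S', a1, a2⟩ := hS.swap01.swap23.swap12.kill hf hL hg hd
    exact ⟨S', ReflTransGen.single a1, a2.swap12.swap23.swap01⟩

/-- Chart of the fourth variable, translating the first. -/
theorem kill30 (hf : 1 ≤ f) {L : ℕ} (hL : p ^ (f + 1) ≤ L) {c0 c1 c2 c3 c : ℤ}
    {α1 α2 α3 α : ZMod p} (hg : Good L c3 c0 c1 c2) (hc : c = c3 + (c0 + c1 + c2))
    (hα : α = α3 + (α1 + α2)) (hd : ¬ ((p : ℤ) ∣ c ∧ (p : ℤ) ∣ c1 ∧ (p : ℤ) ∣ c2)) :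
    Can K n p f L (c0, 0) (c1, α1) (c2, α2) (c3, α3) (0, 0) (c1, α1) (c2, α2) (c, α) :=
  fun S hS => by
    subst hc hα
    obtain ⟨S', a1, a2⟩ := hS.swap23.swap12.swap01.kill hf hL hg hd
    exact ⟨S', ReflTransGen.single a1, a2.swap01.swap12.swap23⟩

theorem cycle (hf : 1 ≤ f) {s : ℕ} (hs : p ^ f = s + 3) {A : ℕ} (hA : p ^ (f + 1) ≤ A)
    (S : Stage K n) (hS : Rel p f S (-(A + s + 2 : ℤ), 0) (0, 0) ((p : ℤ) ^ f, 1) (A, 0)) :
    ∃ S', Rel p f S' (-((A + (s + 1) : ℕ) + s + 2 : ℤ), 0) (0, 0) ((p : ℤ) ^ f, 1)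
        ((A + (s + 1) : ℕ), 0) ∧ TransGen (Mv (p ^ (f + 1)) A) S S' := by
  obtain ⟨r, hr⟩ : ∃ r, p = r + 2 := ⟨p - 2, by have := hp.out.two_le; omega⟩
  have hs' : (p : ℤ) ^ f = s + 3 := by exact_mod_cast hs
  have hr' : (p : ℤ) = r + 2 := by exact_mod_cast hr
  have hz : (r + 2 : ZMod p) = 0 := by
    have : ((r + 2 : ℕ) : ZMod p) = 0 := by rw [← hr]; simp
    exact_mod_cast this
  have hz2 : (s + 3 : ZMod p) = 0 := by
    have : ((s + 3 : ℕ) : ZMod p) = 0 := by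
      rw [← hs, ZMod.natCast_eq_zero_iff]; exact dvd_pow_self p (by omega)
    exact_mod_cast this
  have hd1 : (p : ℤ) ∣ r + 2 := hr' ▸ dvd_rfl
  have hd2 : (p : ℤ) ∣ s + 3 := hs' ▸ dvd_pow_self _ (by omega)
  have h1 : ¬ (p : ℤ) ∣ 1 := fun h => by
    have : p ∣ 1 := by exact_mod_cast h
    exact hp.out.one_lt.ne' (Nat.dvd_one.1 this)
  have hA2 : 2 ≤ A := by
    have : p ≤ p ^ (f + 1) := Nat.le_self_pow (by omega) p
    omega
  obtain ⟨B, rfl⟩ : ∃ B, A = B + 2 := ⟨A - 2, by omega⟩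
  rw [hs'] at hS ⊢
  have c1 := rep1 (K := K) (n := n) hA (s + 2) (c0 := -((B + 2 : ℕ) + s + 2 : ℤ)) (c1 := 0)
    (c2 := s + 3) (c3 := (B + 2 : ℕ)) (c := s + 2) (α0 := 0) (α1 := 0) (α2 := 1) (α3 := 0)
    (α := -1) (fun k _ => by unfold Good; omega) (by push_cast; ring)
    (by push_cast; linear_combination -hz2)
  have c2 := rep2 (K := K) (n := n) hA 2 (c0 := -((B + 2 : ℕ) + s + 2 : ℤ)) (c1 := s + 2)
    (c2 := s + 3) (c3 := (B + 2 : ℕ)) (c := s + 3) (α0 := 0) (α1 := -1) (α2 := 1) (α3 := 0)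
    (α := -1) (fun k _ => by unfold Good; omega) (by push_cast; ring) (by push_cast; ring)
  have c4 := rep1 (K := K) (n := n) hA ((r + 2) * B + r + 1)
    (c0 := -((B + 2 : ℕ) + s + 2 : ℤ)) (c1 := s + 2)
    (c2 := s + 3) (c3 := (B + 2 : ℕ)) (c := (r + 2) * (B + 1) + s + 1) (α0 := 0) (α1 := -1)
    (α2 := -1) (α3 := 0) (α := 0) (fun k _ => by unfold Good; omega) (by push_cast; ring)
    (by push_cast; linear_combination (B + 1) * hz)
  have c5 := kill13 (K := K) (n := n) hf hA (c0 := -((B + 2 : ℕ) + s + 2 : ℤ))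
    (c1 := (r + 2) * (B + 1) + s + 1) (c2 := s + 3) (c3 := (B + 2 : ℕ))
    (c := (r + 2) * (B + 1) + s + 2) (α0 := 0) (α1 := 0) (α2 := -1) (α := -1)
    (by unfold Good; omega) (by push_cast; ring) (by simp)
    (fun h => h1 (by
      have := dvd_sub (dvd_add (hd1.mul_right (B + 1)) hd2) h.1
      have e : ((r : ℤ) + 2) * (B + 1) + (s + 3) - ((r + 2) * (B + 1) + s + 2) = 1 := by ring
      rwa [e] at this))
  have c6 := rep1 (K := K) (n := n) hA (r + 1)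
    (c0 := -((B + 2 : ℕ) + s + 2 : ℤ)) (c1 := (r + 2) * (B + 1) + s + 2)
    (c2 := s + 3) (c3 := 0) (c := B + s + 3) (α0 := 0) (α1 := -1) (α2 := -1)
    (α3 := 0) (α := 0)
    (fun k hk => ⟨Or.inr (Or.inl (by omega)), Or.inl (by
      have hk' : (k : ℤ) ≤ r + 1 := by exact_mod_cast hk.le
      have hB : (0 : ℤ) ≤ B := by positivity
      have hs0 : (0 : ℤ) ≤ s := by positivity
      push_cast
      nlinarith)⟩)
    (by push_cast; ring) (by push_cast; linear_combination hz)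
  have c7 := rep2 (K := K) (n := n) hA (s + 2) (c0 := -((B + 2 : ℕ) + s + 2 : ℤ))
    (c1 := B + s + 3) (c2 := s + 3) (c3 := 0) (c := 1) (α0 := 0) (α1 := 0) (α2 := -1) (α3 := 0)
    (α := -1) (fun k _ => by unfold Good; omega) (by push_cast; ring) (by simp)
  have c8 := rep3 (K := K) (n := n) hA r (c0 := -((B + 2 : ℕ) + s + 2 : ℤ)) (c1 := B + s + 3)
    (c2 := 1) (c3 := 0) (c := 0) (α0 := 0) (α1 := 0) (α2 := -1) (α3 := 0)
    (α := 2) (fun k _ => by unfold Good; omega) (by push_cast; ring)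
    (by linear_combination hz)
  have c9 := rep2 (K := K) (n := n) hA 1 (c0 := -((B + 2 : ℕ) + s + 2 : ℤ)) (c1 := B + s + 3)
    (c2 := 1) (c3 := 0) (c := 0) (α0 := 0) (α1 := 0) (α2 := -1) (α3 := 2)
    (α := 1) (fun k _ => by unfold Good; omega) (by push_cast; ring) (by push_cast; ring)
  have c10 := rep3 (K := K) (n := n) hA ((r + 2) * (B + s + 3) + s + 1)
    (c0 := -((B + 2 : ℕ) + s + 2 : ℤ)) (c1 := B + s + 3)
    (c2 := 0) (c3 := 0) (c := -((r + 2) * (B + s + 3) + s + 1)) (α0 := 0) (α1 := 0) (α2 := 1)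
    (α3 := 2) (α := 0) (fun k _ => by unfold Good; omega) (by push_cast; ring)
    (by push_cast; linear_combination (-B - s - 3) * hz - hz2)
  have c11 := kill30 (K := K) (n := n) hf hA (c0 := -((B + 2 : ℕ) + s + 2 : ℤ))
    (c1 := B + s + 3) (c2 := 0) (c3 := -((r + 2) * (B + s + 3) + s + 1))
    (c := -((r + 2) * (B + s + 3) + s + 2)) (α1 := 0) (α2 := 1) (α3 := 0) (α := 1)
    (by unfold Good; omega) (by push_cast; ring) (by simp)
    (fun h => h1 (by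
      have := dvd_add (dvd_add (hd1.mul_right (B + s + 3)) hd2) h.1
      have e : ((r : ℤ) + 2) * (B + s + 3) + (s + 3) + -((r + 2) * (B + s + 3) + s + 2) = 1 := by
        ring
      rwa [e] at this))
  have c12 := rep3 (K := K) (n := n) hA r
    (c0 := 0) (c1 := B + s + 3) (c2 := 0) (c3 := -((r + 2) * (B + s + 3) + s + 2))
    (c := -(2 * B + 3 * s + 8)) (α0 := 0) (α1 := 0) (α2 := 1) (α3 := 1) (α := -1)
    (fun k hk => ⟨Or.inl (by
      have hk' : (k : ℤ) ≤ r := by exact_mod_cast hk.le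
      have hB : (0 : ℤ) ≤ B := by positivity
      have hs0 : (0 : ℤ) ≤ s := by positivity
      push_cast
      nlinarith), Or.inr (Or.inr (Or.inl (by omega)))⟩)
    (by ring) (by linear_combination -hz)
  obtain ⟨S₁, a1, a2⟩ := (c1.trans <| c2.trans <| c4.trans <| c5.trans <| c6.trans <|
    c7.trans <| c8.trans <| c9.trans <| c10.trans <| c11.trans c12) S hS
  obtain ⟨S₂, b1, b2⟩ := a2.swap23.swap12.swap01.swap23.swap12.jump hf hA
    (by unfold Good; omega)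
    (fun h => h1 (by
      have := dvd_add (dvd_add h.1 h.2.2) hd2
      have e : -(2 * (B : ℤ) + 3 * s + 8) + (0 + 0 + (B + s + 3)) + (B + s + 3) + (s + 3) = 1 := by
        ring
      rwa [e] at this))
  refine ⟨S₂, ?_, TransGen.tail' a1 b1⟩
  rw [hs'] at b2
  convert b2.swap12 using 2 <;> push_cast <;> ring

theorem main (hn : 4 ≤ n) (h3 : 3 ≤ p ^ f) :
    ∃ S : ℕ → Stage K n,
      (S 0).F = X ⟨0, by omega⟩ ^ (p ^ (f + 1) + p ^ f - 1)
        + X ⟨1, by omega⟩ ^ p ^ (f + 1) * X ⟨2, by omega⟩ ^ p ^ f ∧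
      (S 0).exc = ∅ ∧ (∀ k, PointBlowup (p ^ (f + 1)) (S k) (S (k + 1))) ∧
      Tendsto (fun k => residualOrder (S k)) atTop atTop := by
  classical
  have hf : 1 ≤ f := by
    rcases Nat.eq_zero_or_pos f with h | h
    · subst h; simp at h3
    · exact h
  obtain ⟨s, hs⟩ : ∃ s, p ^ f = s + 3 := ⟨p ^ f - 3, by omega⟩
  have hexp : p ^ (f + 1) + p ^ f - 1 = p ^ (f + 1) + s + 2 := by omega
  rw [hexp]
  let i0 : Fin n := ⟨0, by omega⟩
  let i1 : Fin n := ⟨1, by omega⟩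
  let i2 : Fin n := ⟨2, by omega⟩
  let i3 : Fin n := ⟨3, by omega⟩
  have hd : Dist i0 i3 i2 i1 := by simp [Dist, i0, i1, i2, i3]
  have h2 : ¬ p ^ (f + 1) ∣ p ^ (f + 1) + s + 2 := fun h => by
    rw [add_assoc] at h
    have h4 : p ∣ s + 2 := (dvd_pow_self p (by omega)).trans ((Nat.dvd_add_right dvd_rfl).1 h)
    have h5 : p ∣ s + 2 + 1 := by
      have : p ∣ p ^ f := dvd_pow_self p (by omega)
      rwa [hs] at this
    exact hp.out.one_lt.ne' (Nat.dvd_one.1 ((Nat.dvd_add_right h4).1 h5))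
  have h3 : ¬ p ^ (f + 1) ∣ p ^ f * 1 := fun h => by
    rw [mul_one, Nat.pow_dvd_pow_iff_le_right hp.out.one_lt] at h
    omega
  let S0 : Stage K n := ⟨X i0 ^ (p ^ (f + 1) + s + 2) + X i1 ^ p ^ (f + 1) * X i2 ^ p ^ f, ∅⟩
  have hF : S0.F = monomial (mon i0 i3 i2 i1 (p ^ f * 0) (p ^ f * 0) (p ^ f * 1) (p ^ f * p)) 1
      + monomial (mon i0 i3 i2 i1 (p ^ (f + 1) + s + 2) 0 0 0) 1 := by
    rw [monomial_mon, monomial_mon]
    simp only [S0]
    ring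
  have h0 : Rel p f S0 (-((p ^ (f + 1) : ℕ) + s + 2 : ℤ), 0) (0, 0) ((p : ℤ) ^ f, 1)
      ((p ^ (f + 1) : ℕ), 0) := by
    refine ⟨i0, i3, i2, i1, 0, 0, 1, p, p ^ (f + 1) + s + 2, 0, 0, 0, hd, ⟨?_, 1, 1, 0, by simp,
      by simp, ?_⟩, by simp, by simp, by simp, by simp [pow_succ], ?_, fun h => h2 h.1⟩
    · rw [hF]
      refine IsClean.add (fun m hm => ?_) (fun m hm => ?_)
      · have := support_monomial_subset hm
        rw [Finset.mem_singleton] at this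
        subst this
        exact ⟨i2, by rw [(mon_apply hd _ _ _ _).2.2.1]; exact h3⟩
      · have := support_monomial_subset hm
        rw [Finset.mem_singleton] at this
        subst this
        exact ⟨i0, by rw [(mon_apply hd _ _ _ _).1]; exact h2⟩
    · rw [hF, zero_pow (pow_ne_zero _ hp.out.ne_zero)]
      simp
    · rintro ⟨-, -, h, -⟩
      exact hp.out.one_lt.ne' (Nat.dvd_one.1 h)
  obtain ⟨u, s0, s1, s2⟩ := exists_seq (PointBlowup (K := K) (n := n) (p ^ (f + 1))) residualOrder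
    (fun m S => ∃ A : ℕ, p ^ (f + 1) + m ≤ A ∧
      Rel p f S (-(A + s + 2 : ℤ), 0) (0, 0) ((p : ℤ) ^ f, 1) (A, 0))
    (fun m S ⟨A, hA, hS⟩ => by
      obtain ⟨S', a1, a2⟩ := cycle hf hs (le_trans (Nat.le_add_right _ m) hA) S hS
      exact ⟨S', ⟨A + (s + 1), by omega, a1⟩, TransGen.mono
        (fun a b hab => ⟨hab.1, le_trans (by omega) hab.2⟩) _ _ a2⟩)
    S0 ⟨p ^ (f + 1), le_rfl, h0⟩
  exact ⟨u, by rw [s0], by rw [s0], s1, s2⟩

end Pool.Agent.MP_19ffc6_ag.Residual
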