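import Mathlib

set_option autoImplicit false

open MvPolynomial

namespace Pool.Agent.MP_19ffc6_ag.Residual

variable {K : Type*} [Field K] {n : ℕ}

/-- The order of a nonzero polynomial at the origin: the least total degree of a monomial that
occurs in it. -/
noncomputable def ord (F : MvPolynomial (Fin n) K) : ℕ :=
  sInf {d : ℕ | ∃ m ∈ F.support, ∑ j, m j = d}

/-- The order of a nonzero polynomial along the hyperplane `x i = 0`: the least exponent of `x i`
among the monomials that occur in it. -/
noncomputable def ordAlong (i : Fin n) (F : MvPolynomial (Fin n) K) : ℕ :=
  sInf {d : ℕ | ∃ m ∈ F.support, m i = d}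

/-- `F` is `q`-clean: no monomial that occurs in `F` is a `q`-th power. -/
def IsClean (q : ℕ) (F : MvPolynomial (Fin n) K) : Prop :=
  ∀ m ∈ F.support, ∃ j, ¬ q ∣ m j

/-- The purely inseparable equation `z ^ q + F x`; the variable `z` is `X none`. -/
noncomputable def equation (q : ℕ) (F : MvPolynomial (Fin n) K) :
    MvPolynomial (Option (Fin n)) K :=
  X none ^ q + rename some F

/-- The blowup of the origin, read at a point of the `x i`-chart:
`x i ↦ x i`, `x j ↦ x i * (x j + t j)` for `j ≠ i`, and `z ↦ x i * (z + G x)`. -/
noncomputable def blowupChart (i : Fin n) (t : Fin n → K) (G : MvPolynomial (Fin n) K) :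
    MvPolynomial (Option (Fin n)) K →ₐ[K] MvPolynomial (Option (Fin n)) K :=
  aeval fun v : Option (Fin n) =>
    match v with
    | none => X (some i) * (X none + rename some G)
    | some j => if j = i then X (some i) else X (some i) * (X (some j) + C (t j))

/-- A hypersurface `z ^ q + F x = 0` at the origin, with the set of indices `i` such that
`x i = 0` is a component of the exceptional divisor. -/
structure Stage (K : Type*) [Field K] (n : ℕ) where
  /-- the polynomial `F` -/
  F : MvPolynomial (Fin n) K
  /-- the indices of the exceptional components through the origin -/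
  exc : Finset (Fin n)

/-- The residual order: the order of `F` after the exceptional monomial factor is removed. -/
noncomputable def residualOrder (S : Stage K n) : ℕ :=
  ord S.F - ∑ j ∈ S.exc, ordAlong j S.F

open Classical in
/-- `S'` arises from `S` by blowing up the origin, which is a `q`-fold point of the hypersurface,
passing to a point of the strict transform, and cleaning. -/
def PointBlowup (q : ℕ) (S S' : Stage K n) : Prop :=
  q ≤ ord S.F ∧ IsClean q S'.F ∧
    ∃ (i : Fin n) (t : Fin n → K) (G : MvPolynomial (Fin n) K),
      blowupChart i t G (equation q S.F) = X (some i) ^ q * equation q S'.F ∧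
      S'.exc = insert i (S.exc.filter fun j => t j = 0)

end Pool.Agent.MP_19ffc6_ag.Residual
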