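import Pool.Agent.MP_19ffc6_ag.Residual.Shape

set_option autoImplicit false

open MvPolynomial

namespace Pool.Agent.MP_19ffc6_ag.Residual

variable {K : Type*} [Field K] {n : ℕ}

/-- Four pairwise distinct indices. -/
def Dist (i0 i1 i2 i3 : Fin n) : Prop :=
  i0 ≠ i1 ∧ i0 ≠ i2 ∧ i0 ≠ i3 ∧ i1 ≠ i2 ∧ i1 ≠ i3 ∧ i2 ≠ i3

/-- An exponent vector supported on four indices. -/
noncomputable def mon (i0 i1 i2 i3 : Fin n) (a0 a1 a2 a3 : ℕ) : Fin n →₀ ℕ :=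
  Finsupp.single i0 a0 + Finsupp.single i1 a1 + Finsupp.single i2 a2 + Finsupp.single i3 a3

theorem monomial_mon (i0 i1 i2 i3 : Fin n) (a0 a1 a2 a3 : ℕ) :
    (monomial (mon i0 i1 i2 i3 a0 a1 a2 a3) 1 : MvPolynomial (Fin n) K)
      = X i0 ^ a0 * X i1 ^ a1 * X i2 ^ a2 * X i3 ^ a3 := by
  simp [mon, X_pow_eq_monomial, monomial_mul]

theorem mon_apply {i0 i1 i2 i3 : Fin n} (h : Dist i0 i1 i2 i3) (a0 a1 a2 a3 : ℕ) :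
    mon i0 i1 i2 i3 a0 a1 a2 a3 i0 = a0 ∧ mon i0 i1 i2 i3 a0 a1 a2 a3 i1 = a1 ∧
    mon i0 i1 i2 i3 a0 a1 a2 a3 i2 = a2 ∧ mon i0 i1 i2 i3 a0 a1 a2 a3 i3 = a3 := by
  obtain ⟨h1, h2, h3, h4, h5, h6⟩ := h
  simp [mon, h1, h2, h3, h4, h5, h6, h1.symm, h2.symm, h3.symm, h4.symm,
    h5.symm, h6.symm]

theorem chart_zero_mon {i0 i1 i2 i3 : Fin n} (h : Dist i0 i1 i2 i3) (a0 a1 a2 a3 : ℕ) :
    chart i0 (0 : Fin n → K) (monomial (mon i0 i1 i2 i3 a0 a1 a2 a3) 1)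
      = X i0 ^ (a0 + a1 + a2 + a3) * X i1 ^ a1 * X i2 ^ a2 * X i3 ^ a3 := by
  obtain ⟨h1, h2, h3, h4, h5, h6⟩ := h
  rw [monomial_mon]
  simp only [map_mul, map_pow, chart, aeval_X, if_neg h1.symm, if_neg h2.symm, if_neg h3.symm,
    if_true, Pi.zero_apply, map_zero, add_zero]
  ring

theorem chart_single_mon {i0 i1 i2 i3 : Fin n} (h : Dist i0 i1 i2 i3) (a0 a1 a2 a3 : ℕ) :
    chart i0 (Pi.single i1 1 : Fin n → K) (monomial (mon i0 i1 i2 i3 a0 a1 a2 a3) 1)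
      = X i0 ^ (a0 + a1 + a2 + a3) * (X i1 + 1) ^ a1 * X i2 ^ a2 * X i3 ^ a3 := by
  obtain ⟨h1, h2, h3, h4, h5, h6⟩ := h
  rw [monomial_mon]
  simp only [map_mul, map_pow, chart, aeval_X, if_neg h1.symm, if_neg h2.symm, if_neg h3.symm,
    if_true, Pi.single_eq_same, Pi.single_eq_of_ne h4.symm, Pi.single_eq_of_ne h5.symm,
    map_zero, add_zero, map_one, mul_pow]
  ring

/-- One entry is at most `-L` and one entry is at least `L`. -/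
def Good (L : ℕ) (c0 c1 c2 c3 : ℤ) : Prop :=
  (c0 ≤ -L ∨ c1 ≤ -L ∨ c2 ≤ -L ∨ c3 ≤ -L) ∧ ((L : ℤ) ≤ c0 ∨ (L : ℤ) ≤ c1 ∨ (L : ℤ) ≤ c2 ∨ (L : ℤ) ≤ c3)

theorem core (p e : ℕ) [ExpChar K p] {S : Stage K n} {i0 i1 i2 i3 : Fin n}
    (hd : Dist i0 i1 i2 i3) {a0 a1 a2 a3 b0 b1 b2 b3 : ℕ}
    (h : Shape (p ^ e) S.F (mon i0 i1 i2 i3 a0 a1 a2 a3) (mon i0 i1 i2 i3 b0 b1 b2 b3))
    (ha : ¬ (p ^ e ∣ a0 ∧ p ^ e ∣ a1 ∧ p ^ e ∣ a2 ∧ p ^ e ∣ a3))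
    (hb : ¬ (p ^ e ∣ b0 ∧ p ^ e ∣ b1 ∧ p ^ e ∣ b2 ∧ p ^ e ∣ b3))
    {L : ℕ} (hL : 1 ≤ L)
    (hg : Good L ((a0 : ℤ) - b0) ((a1 : ℤ) - b1) ((a2 : ℤ) - b2) ((a3 : ℤ) - b3)) :
    L ≤ residualOrder S ∧ L ≤ a0 + a1 + a2 + a3 ∧ L ≤ b0 + b1 + b2 + b3 := by
  obtain ⟨e0, e1, e2, e3⟩ := mon_apply hd a0 a1 a2 a3
  obtain ⟨f0, f1, f2, f3⟩ := mon_apply hd b0 b1 b2 b3
  have ha' : ∃ j, ¬ p ^ e ∣ mon i0 i1 i2 i3 a0 a1 a2 a3 j := by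
    by_contra hcon
    push Not at hcon
    exact ha ⟨e0 ▸ hcon i0, e1 ▸ hcon i1, e2 ▸ hcon i2, e3 ▸ hcon i3⟩
  have hb' : ∃ j, ¬ p ^ e ∣ mon i0 i1 i2 i3 b0 b1 b2 b3 j := by
    by_contra hcon
    push Not at hcon
    exact hb ⟨f0 ▸ hcon i0, f1 ▸ hcon i1, f2 ▸ hcon i2, f3 ▸ hcon i3⟩
  obtain ⟨hg1, hg2⟩ := hg
  have hi : ∃ i, mon i0 i1 i2 i3 a0 a1 a2 a3 i + L ≤ mon i0 i1 i2 i3 b0 b1 b2 b3 i := by
    rcases hg1 with g | g | g | g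
    · exact ⟨i0, by rw [e0, f0]; omega⟩
    · exact ⟨i1, by rw [e1, f1]; omega⟩
    · exact ⟨i2, by rw [e2, f2]; omega⟩
    · exact ⟨i3, by rw [e3, f3]; omega⟩
  have hk : ∃ i, mon i0 i1 i2 i3 b0 b1 b2 b3 i + L ≤ mon i0 i1 i2 i3 a0 a1 a2 a3 i := by
    rcases hg2 with g | g | g | g
    · exact ⟨i0, by rw [e0, f0]; omega⟩
    · exact ⟨i1, by rw [e1, f1]; omega⟩
    · exact ⟨i2, by rw [e2, f2]; omega⟩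
    · exact ⟨i3, by rw [e3, f3]; omega⟩
  obtain ⟨i, hi⟩ := hi
  obtain ⟨k, hk⟩ := hk
  exact ⟨h.le_residualOrder p e ha' hb' hL hi hk, by omega, by omega⟩

/-- The concrete stage `S` is described by the abstract data `v0, v1, v2, v3`. -/
def Rel (p f : ℕ) (S : Stage K n) (v0 v1 v2 v3 : ℤ × ZMod p) : Prop :=
  ∃ (i0 i1 i2 i3 : Fin n) (A0 A1 A2 A3 b0 b1 b2 b3 : ℕ), Dist i0 i1 i2 i3 ∧
    Shape (p ^ (f + 1)) S.F (mon i0 i1 i2 i3 (p ^ f * A0) (p ^ f * A1) (p ^ f * A2) (p ^ f * A3))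
      (mon i0 i1 i2 i3 b0 b1 b2 b3) ∧
    v0 = (((p ^ f * A0 : ℕ) : ℤ) - b0, (A0 : ZMod p)) ∧
    v1 = (((p ^ f * A1 : ℕ) : ℤ) - b1, (A1 : ZMod p)) ∧
    v2 = (((p ^ f * A2 : ℕ) : ℤ) - b2, (A2 : ZMod p)) ∧
    v3 = (((p ^ f * A3 : ℕ) : ℤ) - b3, (A3 : ZMod p)) ∧
    ¬ (p ∣ A0 ∧ p ∣ A1 ∧ p ∣ A2 ∧ p ∣ A3) ∧
    ¬ (p ^ (f + 1) ∣ b0 ∧ p ^ (f + 1) ∣ b1 ∧ p ^ (f + 1) ∣ b2 ∧ p ^ (f + 1) ∣ b3)

theorem mon_swap01 (i0 i1 i2 i3 : Fin n) (a0 a1 a2 a3 : ℕ) :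
    mon i1 i0 i2 i3 a1 a0 a2 a3 = mon i0 i1 i2 i3 a0 a1 a2 a3 := by
  unfold mon; abel

theorem mon_swap12 (i0 i1 i2 i3 : Fin n) (a0 a1 a2 a3 : ℕ) :
    mon i0 i2 i1 i3 a0 a2 a1 a3 = mon i0 i1 i2 i3 a0 a1 a2 a3 := by
  unfold mon; abel

theorem mon_swap23 (i0 i1 i2 i3 : Fin n) (a0 a1 a2 a3 : ℕ) :
    mon i0 i1 i3 i2 a0 a1 a3 a2 = mon i0 i1 i2 i3 a0 a1 a2 a3 := by
  unfold mon; abel

theorem Rel.swap01 {p f : ℕ} {S : Stage K n} {v0 v1 v2 v3 : ℤ × ZMod p}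
    (h : Rel p f S v0 v1 v2 v3) : Rel p f S v1 v0 v2 v3 := by
  obtain ⟨i0, i1, i2, i3, A0, A1, A2, A3, b0, b1, b2, b3, ⟨h1, h2, h3, h4, h5, h6⟩, hs,
    e0, e1, e2, e3, ha, hb⟩ := h
  refine ⟨i1, i0, i2, i3, A1, A0, A2, A3, b1, b0, b2, b3, ⟨h1.symm, h4, h5, h2, h3, h6⟩, ?_,
    e1, e0, e2, e3, by tauto, by tauto⟩
  rwa [mon_swap01 i0 i1 i2 i3, mon_swap01 i0 i1 i2 i3]

theorem Rel.swap12 {p f : ℕ} {S : Stage K n} {v0 v1 v2 v3 : ℤ × ZMod p}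
    (h : Rel p f S v0 v1 v2 v3) : Rel p f S v0 v2 v1 v3 := by
  obtain ⟨i0, i1, i2, i3, A0, A1, A2, A3, b0, b1, b2, b3, ⟨h1, h2, h3, h4, h5, h6⟩, hs,
    e0, e1, e2, e3, ha, hb⟩ := h
  refine ⟨i0, i2, i1, i3, A0, A2, A1, A3, b0, b2, b1, b3, ⟨h2, h1, h3, h4.symm, h6, h5⟩, ?_,
    e0, e2, e1, e3, by tauto, by tauto⟩
  rwa [mon_swap12 i0 i1 i2 i3, mon_swap12 i0 i1 i2 i3]

theorem Rel.swap23 {p f : ℕ} {S : Stage K n} {v0 v1 v2 v3 : ℤ × ZMod p}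
    (h : Rel p f S v0 v1 v2 v3) : Rel p f S v0 v1 v3 v2 := by
  obtain ⟨i0, i1, i2, i3, A0, A1, A2, A3, b0, b1, b2, b3, ⟨h1, h2, h3, h4, h5, h6⟩, hs,
    e0, e1, e2, e3, ha, hb⟩ := h
  refine ⟨i0, i1, i3, i2, A0, A1, A3, A2, b0, b1, b3, b2, ⟨h1, h3, h2, h5, h4, h6.symm⟩, ?_,
    e0, e1, e3, e2, by tauto, by tauto⟩
  rwa [mon_swap23 i0 i1 i2 i3, mon_swap23 i0 i1 i2 i3]

/-- One blowup from a stage whose residual order is at least `L`. -/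
def Mv (q L : ℕ) (S S' : Stage K n) : Prop := PointBlowup q S S' ∧ L ≤ residualOrder S

theorem mon_ne_zero {i0 i1 i2 i3 : Fin n} (hd : Dist i0 i1 i2 i3) {a0 a1 a2 a3 : ℕ}
    (h : 1 ≤ a0 + a1 + a2 + a3) : mon i0 i1 i2 i3 a0 a1 a2 a3 ≠ 0 := by
  intro h0
  obtain ⟨e0, e1, e2, e3⟩ := mon_apply hd a0 a1 a2 a3
  rw [h0] at e0 e1 e2 e3
  simp only [Finsupp.coe_zero, Pi.zero_apply] at e0 e1 e2 e3
  omega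

section moves

variable {p f : ℕ} [hp : Fact p.Prime] [CharP K p] [PerfectRing K p]

omit [PerfectRing K p] in
theorem prep {S : Stage K n} {i0 i1 i2 i3 : Fin n}
    (hd : Dist i0 i1 i2 i3) {A0 A1 A2 A3 b0 b1 b2 b3 : ℕ}
    (hs : Shape (p ^ (f + 1)) S.F
      (mon i0 i1 i2 i3 (p ^ f * A0) (p ^ f * A1) (p ^ f * A2) (p ^ f * A3))
      (mon i0 i1 i2 i3 b0 b1 b2 b3))
    (ha : ¬ (p ∣ A0 ∧ p ∣ A1 ∧ p ∣ A2 ∧ p ∣ A3))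
    (hb : ¬ (p ^ (f + 1) ∣ b0 ∧ p ^ (f + 1) ∣ b1 ∧ p ^ (f + 1) ∣ b2 ∧ p ^ (f + 1) ∣ b3))
    {L : ℕ} (hL : p ^ (f + 1) ≤ L)
    (hg : Good L (((p ^ f * A0 : ℕ) : ℤ) - b0) (((p ^ f * A1 : ℕ) : ℤ) - b1)
      (((p ^ f * A2 : ℕ) : ℤ) - b2) (((p ^ f * A3 : ℕ) : ℤ) - b3)) :
    L ≤ residualOrder S ∧ p ^ (f + 1) ≤ ord S.F ∧
      mon i0 i1 i2 i3 (p ^ f * A0) (p ^ f * A1) (p ^ f * A2) (p ^ f * A3) ≠ 0 ∧
      mon i0 i1 i2 i3 b0 b1 b2 b3 ≠ 0 ∧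
      (∃ A, A0 + A1 + A2 + A3 = A + p) ∧ (∃ b, b0 + b1 + b2 + b3 = b + p ^ (f + 1)) := by
  have hP : 0 < p ^ f := pow_pos hp.out.pos _
  have hq : 0 < p ^ (f + 1) := pow_pos hp.out.pos _
  have hdvd : ∀ A, p ^ (f + 1) ∣ p ^ f * A ↔ p ∣ A := fun A => by
    rw [pow_succ]; exact Nat.mul_dvd_mul_iff_left hP
  obtain ⟨r1, r2, r3⟩ := core p (f + 1) hd hs (by simpa only [hdvd] using ha) hb
    (by omega) hg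
  refine ⟨r1, hL.trans (r1.trans (residualOrder_le_ord S)), mon_ne_zero hd (by omega),
    mon_ne_zero hd (by omega), ⟨A0 + A1 + A2 + A3 - p, ?_⟩, ⟨b0 + b1 + b2 + b3 - p ^ (f + 1), ?_⟩⟩
  · have : p ^ f * p ≤ p ^ f * (A0 + A1 + A2 + A3) := by
      rw [← pow_succ]; nlinarith
    have := Nat.le_of_mul_le_mul_left this hP
    omega
  · omega

theorem Rel.move {S : Stage K n} {c0 c1 c2 c3 : ℤ} {α0 α1 α2 α3 : ZMod p}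
    (h : Rel p f S (c0, α0) (c1, α1) (c2, α2) (c3, α3)) {L : ℕ} (hL : p ^ (f + 1) ≤ L)
    (hg : Good L c0 c1 c2 c3) :
    ∃ S', Mv (p ^ (f + 1)) L S S' ∧
      Rel p f S' (c0 + (c1 + c2 + c3), α0 + (α1 + α2 + α3)) (c1, α1) (c2, α2) (c3, α3) := by
  obtain ⟨i0, i1, i2, i3, A0, A1, A2, A3, b0, b1, b2, b3, hd, hs,
    e0, e1, e2, e3, ha, hb⟩ := h
  simp only [Prod.mk.injEq] at e0 e1 e2 e3
  obtain ⟨rfl, rfl⟩ := e0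
  obtain ⟨rfl, rfl⟩ := e1
  obtain ⟨rfl, rfl⟩ := e2
  obtain ⟨rfl, rfl⟩ := e3
  obtain ⟨r1, r2, r3, r4, ⟨A, hA⟩, ⟨b, hB⟩⟩ := prep hd hs ha hb hL hg
  have hA' : p ^ f * A0 + p ^ f * A1 + p ^ f * A2 + p ^ f * A3 = p ^ (f + 1) + p ^ f * A := by
    rw [← mul_add, ← mul_add, ← mul_add, hA]; ring
  have hq : p ^ (f + 1) ≠ 0 := pow_ne_zero _ hp.out.ne_zero
  obtain ⟨S', hS', hsh⟩ := hs.step p (f + 1)
    (a' := mon i0 i1 i2 i3 (p ^ f * A) (p ^ f * A1) (p ^ f * A2) (p ^ f * A3))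
    (b' := mon i0 i1 i2 i3 b b1 b2 b3) r2 r3 r4 i0 0 1 1 0 (by simp) (by simp)
    (by rw [chart_zero_mon hd, monomial_mon, hA', zero_pow hq, pow_add]; ring)
    (by rw [chart_zero_mon hd, monomial_mon, hB, pow_add]; ring)
  refine ⟨S', ⟨hS', r1⟩, i0, i1, i2, i3, A, A1, A2, A3, b, b1, b2, b3, hd, hsh, ?_, rfl, rfl, rfl,
    ?_, ?_⟩
  · have h1 : ((A0 : ZMod p) + A1 + A2 + A3) = A := by
      have := congrArg (Nat.cast : ℕ → ZMod p) hA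
      simpa using this
    have h2 := congrArg (Nat.cast : ℕ → ℤ) hA'
    have h3 := congrArg (Nat.cast : ℕ → ℤ) hB
    push_cast at h2 h3 ⊢
    rw [Prod.mk.injEq]
    exact ⟨by linear_combination h2 - h3, by linear_combination h1⟩
  · rintro ⟨d0, d1, d2, d3⟩
    refine ha ⟨?_, d1, d2, d3⟩
    have : p ∣ A0 + A1 + A2 + A3 := hA ▸ dvd_add d0 dvd_rfl
    exact (Nat.dvd_add_left d1).1 ((Nat.dvd_add_left d2).1 ((Nat.dvd_add_left d3).1 this))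
  · rintro ⟨d0, d1, d2, d3⟩
    refine hb ⟨?_, d1, d2, d3⟩
    have : p ^ (f + 1) ∣ b0 + b1 + b2 + b3 := hB ▸ dvd_add d0 dvd_rfl
    exact (Nat.dvd_add_left d1).1 ((Nat.dvd_add_left d2).1 ((Nat.dvd_add_left d3).1 this))

omit hp [CharP K p] [PerfectRing K p] in
theorem dvd_of_pow_dvd (hf : 1 ≤ f) {A b : ℕ} (h : p ^ (f + 1) ∣ b) :
    (p : ℤ) ∣ ((p ^ f * A : ℕ) : ℤ) - b := by
  apply dvd_sub
  · exact Int.natCast_dvd_natCast.2 (Dvd.dvd.mul_right (dvd_pow_self p (by omega)) _)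
  · exact Int.natCast_dvd_natCast.2 ((dvd_pow_self p (by omega)).trans h)

theorem Rel.kill (hf : 1 ≤ f) {S : Stage K n} {c0 c1 c2 c3 : ℤ} {α0 α2 α3 : ZMod p}
    (h : Rel p f S (c0, α0) (c1, 0) (c2, α2) (c3, α3)) {L : ℕ} (hL : p ^ (f + 1) ≤ L)
    (hg : Good L c0 c1 c2 c3)
    (hc : ¬ ((p : ℤ) ∣ c0 + (c1 + c2 + c3) ∧ (p : ℤ) ∣ c2 ∧ (p : ℤ) ∣ c3)) :
    ∃ S', Mv (p ^ (f + 1)) L S S' ∧
      Rel p f S' (c0 + (c1 + c2 + c3), α0 + (α2 + α3)) (0, 0) (c2, α2) (c3, α3) := by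
  obtain ⟨i0, i1, i2, i3, A0, A1, A2, A3, b0, b1, b2, b3, hd, hs,
    e0, e1, e2, e3, ha, hb⟩ := h
  simp only [Prod.mk.injEq] at e0 e1 e2 e3
  obtain ⟨rfl, rfl⟩ := e0
  obtain ⟨rfl, e1⟩ := e1
  obtain ⟨rfl, rfl⟩ := e2
  obtain ⟨rfl, rfl⟩ := e3
  obtain ⟨k, rfl⟩ : p ∣ A1 := (ZMod.natCast_eq_zero_iff _ _).1 e1.symm
  obtain ⟨r1, r2, r3, r4, ⟨A, hA⟩, ⟨b, hB⟩⟩ := prep hd hs ha hb hL hg
  have hA' : p ^ f * A0 + p ^ f * (p * k) + p ^ f * A2 + p ^ f * A3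
      = p ^ (f + 1) + p ^ f * A := by
    rw [← mul_add, ← mul_add, ← mul_add, hA]; ring
  have hq : p ^ (f + 1) ≠ 0 := pow_ne_zero _ hp.out.ne_zero
  have h2 := congrArg (Nat.cast : ℕ → ℤ) hA'
  have h3 := congrArg (Nat.cast : ℕ → ℤ) hB
  have h4 : ((p ^ f * A0 : ℕ) : ℤ) - b0 + (((p ^ f * (p * k) : ℕ) : ℤ) - b1 +
      (((p ^ f * A2 : ℕ) : ℤ) - b2) + (((p ^ f * A3 : ℕ) : ℤ) - b3))
      = ((p ^ f * A : ℕ) : ℤ) - b := by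
    push_cast at h2 h3 ⊢
    linear_combination h2 - h3
  obtain ⟨S', hS', hsh⟩ := hs.step p (f + 1)
    (a' := mon i0 i1 i2 i3 (p ^ f * A) (p ^ f * 0) (p ^ f * A2) (p ^ f * A3))
    (b' := mon i0 i1 i2 i3 b 0 b2 b3) r2 r3 r4 i0 (Pi.single i1 1) ((X i1 + 1) ^ k)
    ((X i1 + 1) ^ b1) 0 (by simp) (by simp)
    (by rw [chart_single_mon hd, monomial_mon, hA', zero_pow hq, pow_add]; ring)
    (by rw [chart_single_mon hd, monomial_mon, hB, pow_add]; ring)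
  refine ⟨S', ⟨hS', r1⟩, i0, i1, i2, i3, A, 0, A2, A3, b, 0, b2, b3, hd, hsh, ?_, by simp, rfl, rfl,
    ?_, ?_⟩
  · have h1 : ((A0 : ZMod p) + A2 + A3) = A := by
      have := congrArg (Nat.cast : ℕ → ZMod p) hA
      simpa using this
    rw [Prod.mk.injEq]
    exact ⟨h4, by linear_combination h1⟩
  · rintro ⟨d0, -, d2, d3⟩
    have d1 : p ∣ p * k := dvd_mul_right _ _
    refine ha ⟨?_, d1, d2, d3⟩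
    have : p ∣ A0 + p * k + A2 + A3 := hA ▸ dvd_add d0 dvd_rfl
    exact (Nat.dvd_add_left d1).1 ((Nat.dvd_add_left d2).1 ((Nat.dvd_add_left d3).1 this))
  · rintro ⟨d0, -, d2, d3⟩
    exact hc ⟨h4 ▸ dvd_of_pow_dvd hf d0, dvd_of_pow_dvd hf d2, dvd_of_pow_dvd hf d3⟩

theorem Rel.jump (hf : 1 ≤ f) {S : Stage K n} {c0 c1 c2 c3 : ℤ}
    (h : Rel p f S (c0, -1) (c1, 1) (c2, 0) (c3, 0)) {L : ℕ} (hL : p ^ (f + 1) ≤ L)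
    (hg : Good L c0 c1 c2 c3)
    (hc : ¬ ((p : ℤ) ∣ c0 + (c1 + c2 + c3) ∧ (p : ℤ) ∣ c2 ∧ (p : ℤ) ∣ c3)) :
    ∃ S', Mv (p ^ (f + 1)) L S S' ∧
      Rel p f S' (c0 + (c1 + c2 + c3), 0) ((p : ℤ) ^ f, 1) (c2, 0) (c3, 0) := by
  obtain ⟨i0, i1, i2, i3, A0, A1, A2, A3, b0, b1, b2, b3, hd, hs,
    e0, e1, e2, e3, ha, hb⟩ := h
  simp only [Prod.mk.injEq] at e0 e1 e2 e3
  obtain ⟨rfl, e0⟩ := e0
  obtain ⟨rfl, e1⟩ := e1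
  obtain ⟨rfl, e2⟩ := e2
  obtain ⟨rfl, e3⟩ := e3
  obtain ⟨k2, rfl⟩ : p ∣ A2 := (ZMod.natCast_eq_zero_iff _ _).1 e2.symm
  obtain ⟨k3, rfl⟩ : p ∣ A3 := (ZMod.natCast_eq_zero_iff _ _).1 e3.symm
  obtain ⟨k1, rfl⟩ : ∃ k, A1 = p * k + 1 := by
    have h1 : 1 ≤ A1 := by
      rcases Nat.eq_zero_or_pos A1 with h0 | h0
      · subst h0; simp at e1
      · exact h0
    have h2 : ((A1 - 1 : ℕ) : ZMod p) = 0 := by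
      rw [Nat.cast_sub h1, ← e1]; simp
    obtain ⟨k, hk⟩ := (ZMod.natCast_eq_zero_iff _ _).1 h2
    exact ⟨k, by omega⟩
  obtain ⟨r1, r2, r3, r4, ⟨A, hA⟩, ⟨b, hB⟩⟩ := prep hd hs ha hb hL hg
  obtain ⟨k0, rfl⟩ : p ∣ A := by
    rw [← ZMod.natCast_eq_zero_iff]
    have := congrArg (Nat.cast : ℕ → ZMod p) hA
    push_cast at this
    rw [← e0] at this
    simpa using this.symm
  have hA' : p ^ f * A0 + p ^ f * (p * k1 + 1) + p ^ f * (p * k2) + p ^ f * (p * k3)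
      = p ^ (f + 1) + p ^ f * (p * k0) := by
    rw [← mul_add, ← mul_add, ← mul_add, hA]; ring
  have h2 := congrArg (Nat.cast : ℕ → ℤ) hA'
  have h3 := congrArg (Nat.cast : ℕ → ℤ) hB
  have h4 : ((p ^ f * A0 : ℕ) : ℤ) - b0 + (((p ^ f * (p * k1 + 1) : ℕ) : ℤ) - b1 +
      (((p ^ f * (p * k2) : ℕ) : ℤ) - b2) + (((p ^ f * (p * k3) : ℕ) : ℤ) - b3))
      = ((p ^ f * (p * k0) : ℕ) : ℤ) - b := by
    push_cast at h2 h3 ⊢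
    linear_combination h2 - h3
  have h5 : ((X i1 + 1 : MvPolynomial (Fin n) K)) ^ (p ^ f * (p * k1 + 1))
      = ((X i1 + 1) ^ k1) ^ p ^ (f + 1) * (X i1 ^ p ^ f + 1) := by
    have h6 : ((X i1 + 1 : MvPolynomial (Fin n) K)) ^ p ^ f = X i1 ^ p ^ f + 1 := by
      rw [add_pow_char_pow, one_pow]
    rw [← h6]; ring
  obtain ⟨S', hS', hsh⟩ := hs.step p (f + 1)
    (a' := mon i0 i1 i2 i3 (p ^ f * (p * k0)) (p ^ f * 1) (p ^ f * (p * k2)) (p ^ f * (p * k3)))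
    (b' := mon i0 i1 i2 i3 b 0 b2 b3) r2 r3 r4 i0 (Pi.single i1 1) ((X i1 + 1) ^ k1)
    ((X i1 + 1) ^ b1) ((X i1 + 1) ^ k1 * X i0 ^ k0 * X i2 ^ k2 * X i3 ^ k3) (by simp) (by simp)
    (by
      rw [chart_single_mon hd, monomial_mon, hA', h5]
      generalize ((X i1 + 1 : MvPolynomial (Fin n) K)) ^ k1 = Y
      ring)
    (by rw [chart_single_mon hd, monomial_mon, hB, pow_add]; ring)
  refine ⟨S', ⟨hS', r1⟩, i0, i1, i2, i3, p * k0, 1, p * k2, p * k3, b, 0, b2, b3, hd, hsh, ?_,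
    by simp, by simp, by simp, ?_, ?_⟩
  · rw [Prod.mk.injEq]
    exact ⟨h4, by simp⟩
  · rintro ⟨-, d1, -, -⟩
    exact hp.out.one_lt.ne' (Nat.dvd_one.1 d1)
  · rintro ⟨d0, -, d2, d3⟩
    exact hc ⟨h4 ▸ dvd_of_pow_dvd hf d0, dvd_of_pow_dvd hf d2, dvd_of_pow_dvd hf d3⟩

end moves

end Pool.Agent.MP_19ffc6_ag.Residual
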