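import Pool.Agent.MP_19ffc6_ag.Residual.Cycle

set_option autoImplicit false

open MvPolynomial Filter Pool.Agent.MP_19ffc6_ag.Residual

namespace Pool.Agent.MP_19ffc6_ag.Residual.Parked

/-- For every prime power `p ^ e` with `e ≥ 2`, other than `4`, and every `n ≥ 4` there is an
infinite sequence of point blowups of a purely inseparable hypersurface
`z ^ p ^ e + F (x 0, …, x (n - 1))`, all centred at points of multiplicity `p ^ e`, along which the
residual order tends to infinity. -/
theorem result (p e n : ℕ) [Fact p.Prime] (he : 2 ≤ e) (h4 : p ^ e ≠ 4) (hn : 4 ≤ n)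
    (K : Type*) [Field K] [CharP K p] [PerfectField K] :
    ∃ S : ℕ → Stage K n,
      (S 0).F = X ⟨0, by omega⟩ ^ (p ^ e + p ^ (e - 1) - 1)
        + X ⟨1, by omega⟩ ^ p ^ e * X ⟨2, by omega⟩ ^ p ^ (e - 1) ∧
      (S 0).exc = ∅ ∧
      (∀ k, PointBlowup (p ^ e) (S k) (S (k + 1))) ∧
      Tendsto (fun k => residualOrder (S k)) atTop atTop := by
  obtain ⟨f, rfl⟩ : ∃ f, e = f + 2 := ⟨e - 2, by omega⟩
  have : PerfectRing K p := PerfectField.toPerfectRing p
  refine main (f := f + 1) hn ?_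
  have h2 : 2 ≤ p := (Fact.out : p.Prime).two_le
  by_contra hlt
  have h5 : p ^ (f + 1) ≤ 2 := by omega
  have h6 : p ≤ p ^ (f + 1) := Nat.le_self_pow (by omega) p
  obtain rfl : p = 2 := by omega
  have h7 : (2 : ℕ) ^ (f + 1) = 2 := by omega
  exact h4 (by rw [show f + 2 = f + 1 + 1 from rfl, pow_succ, h7]; rfl)

end Pool.Agent.MP_19ffc6_ag.Residual.Parked
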