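import Pool.Agent.MP_19ffc6_ag.Residual.Defs

set_option autoImplicit false

open MvPolynomial

namespace Pool.Agent.MP_19ffc6_ag.Residual

variable {K : Type*} [Field K] {n : ℕ}

theorem coeff_pow_of_not_dvd (p e : ℕ) [ExpChar K p] (G : MvPolynomial (Fin n) K)
    {m : Fin n →₀ ℕ} {j : Fin n} (h : ¬ p ^ e ∣ m j) : coeff m (G ^ p ^ e) = 0 := by
  rw [← map_iterateFrobenius_expand, coeff_map, coeff_expand_of_not_dvd _ h, map_zero]

theorem IsClean.add {q : ℕ} {F G : MvPolynomial (Fin n) K} (hF : IsClean q F) (hG : IsClean q G) :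
    IsClean q (F + G) := by
  classical
  intro m hm
  rcases Finset.mem_union.1 (support_add hm) with h | h
  · exact hF m h
  · exact hG m h

theorem exists_clean (p e : ℕ) [ExpChar K p] [PerfectRing K p] (H : MvPolynomial (Fin n) K) :
    ∃ F G : MvPolynomial (Fin n) K, IsClean (p ^ e) F ∧ F + G ^ p ^ e = H := by
  classical
  induction H using MvPolynomial.induction_on' with
  | monomial m c =>
    by_cases hm : ∀ j, p ^ e ∣ m j
    · obtain ⟨r, hr⟩ := (iterateFrobeniusEquiv K p e).surjective c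
      refine ⟨0, monomial (m.mapRange (fun k => k / p ^ e) (by simp)) r, ?_, ?_⟩
      · intro m hm; simp at hm
      · rw [zero_add, monomial_pow]
        have h1 : (p ^ e) • (m.mapRange (fun k => k / p ^ e) (by simp)) = m := by
          ext j
          simp only [Finsupp.smul_apply, Finsupp.mapRange_apply, smul_eq_mul]
          exact Nat.mul_div_cancel' (hm j)
        rw [h1]
        congr 1
    · refine ⟨monomial m c, 0, ?_, ?_⟩
      · intro m' hm'
        have := support_monomial_subset hm'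
        rw [Finset.mem_singleton] at this
        subst this
        push Not at hm
        exact hm
      · rw [zero_pow (pow_ne_zero _ (expChar_ne_zero K p)), add_zero]
  | add H₁ H₂ h₁ h₂ =>
    obtain ⟨F₁, G₁, hc₁, he₁⟩ := h₁
    obtain ⟨F₂, G₂, hc₂, he₂⟩ := h₂
    refine ⟨F₁ + F₂, G₁ + G₂, hc₁.add hc₂, ?_⟩
    rw [add_pow_expChar_pow, ← he₁, ← he₂]
    ring

/-- `F` is clean and equals, up to a `q`-th power, a monomial times the `q`-th power of a unit plus
a monomial times a unit. -/
def Shape (q : ℕ) (F : MvPolynomial (Fin n) K) (a b : Fin n →₀ ℕ) : Prop :=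
  IsClean q F ∧ ∃ ε V G : MvPolynomial (Fin n) K, constantCoeff ε ≠ 0 ∧ constantCoeff V ≠ 0 ∧
    F + G ^ q = monomial a 1 * ε ^ q + monomial b 1 * V

theorem Shape.le_of_mem (p e : ℕ) [ExpChar K p] {F : MvPolynomial (Fin n) K} {a b : Fin n →₀ ℕ}
    (h : Shape (p ^ e) F a b) {m : Fin n →₀ ℕ} (hm : m ∈ F.support) : a ≤ m ∨ b ≤ m := by
  classical
  obtain ⟨hc, ε, V, G, -, -, he⟩ := h
  obtain ⟨j, hj⟩ := hc m hm
  have h1 := congrArg (coeff m) he
  rw [coeff_add, coeff_pow_of_not_dvd p e G hj, add_zero, coeff_add, coeff_monomial_mul',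
    coeff_monomial_mul'] at h1
  by_contra hcon
  push Not at hcon
  rw [if_neg hcon.1, if_neg hcon.2, add_zero] at h1
  exact (mem_support_iff.1 hm) h1

theorem Shape.left_mem (p e : ℕ) [ExpChar K p] {F : MvPolynomial (Fin n) K} {a b : Fin n →₀ ℕ}
    (h : Shape (p ^ e) F a b) (ha : ∃ j, ¬ p ^ e ∣ a j) (hba : ¬ b ≤ a) : a ∈ F.support := by
  classical
  obtain ⟨hc, ε, V, G, hε, -, he⟩ := h
  obtain ⟨j, hj⟩ := ha
  have h1 := congrArg (coeff a) he
  rw [coeff_add, coeff_pow_of_not_dvd p e G hj, add_zero, coeff_add, coeff_monomial_mul',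
    coeff_monomial_mul', if_pos le_rfl, if_neg hba, add_zero, tsub_self, one_mul,
    ← constantCoeff_eq, map_pow] at h1
  rw [mem_support_iff, h1]
  exact pow_ne_zero _ hε

theorem Shape.right_mem (p e : ℕ) [ExpChar K p] {F : MvPolynomial (Fin n) K} {a b : Fin n →₀ ℕ}
    (h : Shape (p ^ e) F a b) (hb : ∃ j, ¬ p ^ e ∣ b j) (hab : ¬ a ≤ b) : b ∈ F.support := by
  classical
  obtain ⟨hc, ε, V, G, -, hV, he⟩ := h
  obtain ⟨j, hj⟩ := hb
  have h1 := congrArg (coeff b) he
  rw [coeff_add, coeff_pow_of_not_dvd p e G hj, add_zero, coeff_add, coeff_monomial_mul',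
    coeff_monomial_mul', if_pos le_rfl, if_neg hab, zero_add, tsub_self, one_mul,
    ← constantCoeff_eq] at h1
  rw [mem_support_iff, h1]
  exact hV

theorem Shape.le_residualOrder (p e : ℕ) [ExpChar K p] {S : Stage K n} {a b : Fin n →₀ ℕ}
    (h : Shape (p ^ e) S.F a b) (ha : ∃ j, ¬ p ^ e ∣ a j) (hb : ∃ j, ¬ p ^ e ∣ b j)
    {L : ℕ} (hL : 1 ≤ L) {i k : Fin n} (hi : a i + L ≤ b i) (hk : b k + L ≤ a k) :
    L ≤ residualOrder S := by
  classical
  have hab : ¬ a ≤ b := fun hh => by have := hh k; omega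
  have hba : ¬ b ≤ a := fun hh => by have := hh i; omega
  have hamem := h.left_mem p e ha hba
  have hbmem := h.right_mem p e hb hab
  have h1 : ∀ j, ordAlong j S.F ≤ min (a j) (b j) := fun j =>
    le_min (Nat.sInf_le ⟨a, hamem, rfl⟩) (Nat.sInf_le ⟨b, hbmem, rfl⟩)
  have h2 : ∑ j ∈ S.exc, ordAlong j S.F ≤ ∑ j, min (a j) (b j) :=
    (Finset.sum_le_sum fun j _ => h1 j).trans
      (Finset.sum_le_sum_of_subset (Finset.subset_univ _))
  have h3 : ∑ j, min (a j) (b j) + L ≤ ∑ j, a j := by
    have : ∑ j, min (a j) (b j) + L = ∑ j, (min (a j) (b j) + if j = k then L else 0) := by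
      rw [Finset.sum_add_distrib]; simp
    rw [this]
    refine Finset.sum_le_sum fun j _ => ?_
    split_ifs with hj
    · subst hj; omega
    · omega
  have h4 : ∑ j, min (a j) (b j) + L ≤ ∑ j, b j := by
    have : ∑ j, min (a j) (b j) + L = ∑ j, (min (a j) (b j) + if j = i then L else 0) := by
      rw [Finset.sum_add_distrib]; simp
    rw [this]
    refine Finset.sum_le_sum fun j _ => ?_
    split_ifs with hj
    · subst hj; omega
    · omega
  have h5 : ∑ j, min (a j) (b j) + L ≤ ord S.F := by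
    have hne : {d : ℕ | ∃ m ∈ S.F.support, ∑ j, m j = d}.Nonempty := ⟨_, a, hamem, rfl⟩
    obtain ⟨m, hm, hd⟩ := Nat.sInf_mem hne
    unfold ord
    rw [← hd]
    rcases h.le_of_mem p e hm with hh | hh
    · exact h3.trans (Finset.sum_le_sum fun j _ => hh j)
    · exact h4.trans (Finset.sum_le_sum fun j _ => hh j)
  unfold residualOrder
  omega

theorem residualOrder_le_ord (S : Stage K n) : residualOrder S ≤ ord S.F := Nat.sub_le _ _

/-- The chart substitution on the variables `x`. -/
noncomputable def chart (i : Fin n) (t : Fin n → K) :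
    MvPolynomial (Fin n) K →ₐ[K] MvPolynomial (Fin n) K :=
  aeval fun j => if j = i then X i else X i * (X j + C (t j))

theorem blowupChart_rename (i : Fin n) (t : Fin n → K) (G F : MvPolynomial (Fin n) K) :
    blowupChart i t G (rename some F) = rename some (chart i t F) := by
  have : (blowupChart i t G).comp (rename some) = (rename some).comp (chart i t) := by
    ext1 j
    simp only [blowupChart, chart, AlgHom.comp_apply, rename_X, aeval_X]
    split_ifs <;> simp
  exact congrArg (fun φ => φ F) this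

theorem exists_chart_eq (i : Fin n) (t : Fin n → K) (G : MvPolynomial (Fin n) K) :
    ∃ G₁, chart i t G = C (constantCoeff G) + X i * G₁ := by
  induction G using MvPolynomial.induction_on with
  | C c => exact ⟨0, by simp [chart]⟩
  | add G₁ G₂ h₁ h₂ =>
    obtain ⟨A, hA⟩ := h₁
    obtain ⟨B, hB⟩ := h₂
    exact ⟨A + B, by rw [map_add, hA, hB, map_add, map_add]; ring⟩
  | mul_X G j h =>
    obtain ⟨A, hA⟩ := h
    by_cases hj : j = i
    · refine ⟨chart i t G, ?_⟩
      rw [map_mul]
      simp [chart, hj, mul_comm]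
    · refine ⟨chart i t G * (X j + C (t j)), ?_⟩
      rw [map_mul]
      simp only [chart, aeval_X, if_neg hj, map_mul, constantCoeff_X, mul_zero, map_zero, zero_add]
      ring

theorem constantCoeff_chart (i : Fin n) (t : Fin n → K) (G : MvPolynomial (Fin n) K) :
    constantCoeff (chart i t G) = constantCoeff G := by
  obtain ⟨G₁, h⟩ := exists_chart_eq i t G
  rw [h]; simp

open Classical in
/-- The basic step. -/
theorem Shape.step (p e : ℕ) [ExpChar K p] [PerfectRing K p] {S : Stage K n}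
    {a b a' b' : Fin n →₀ ℕ} (h : Shape (p ^ e) S.F a b) (hq : p ^ e ≤ ord S.F)
    (ha : a ≠ 0) (hb : b ≠ 0) (i : Fin n) (t : Fin n → K)
    (ε₁ V₁ G₁ : MvPolynomial (Fin n) K) (hε₁ : constantCoeff ε₁ ≠ 0) (hV₁ : constantCoeff V₁ ≠ 0)
    (h1 : chart i t (monomial a 1) = X i ^ p ^ e * (monomial a' 1 * ε₁ ^ p ^ e + G₁ ^ p ^ e))
    (h2 : chart i t (monomial b 1) = X i ^ p ^ e * (monomial b' 1 * V₁)) :
    ∃ S' : Stage K n, PointBlowup (p ^ e) S S' ∧ Shape (p ^ e) S'.F a' b' := by
  obtain ⟨hc, ε, V, G, hε, hV, hFG⟩ := h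
  have hp0 : p ^ e ≠ 0 := pow_ne_zero _ (expChar_ne_zero K p)
  have hF0 : constantCoeff S.F = 0 := by
    by_contra hne
    have : (0 : Fin n →₀ ℕ) ∈ S.F.support := by
      rw [mem_support_iff, ← constantCoeff_eq]; exact hne
    obtain ⟨j, hj⟩ := hc 0 this
    exact hj (by simp)
  have hG0 : constantCoeff G = 0 := by
    have := congrArg constantCoeff hFG
    simp only [map_add, map_mul, map_pow, hF0, zero_add, constantCoeff_monomial, if_neg ha,
      if_neg hb, zero_mul, add_zero] at this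
    exact pow_eq_zero_iff hp0 |>.1 this
  obtain ⟨G₂, hG₂⟩ := exists_chart_eq i t G
  rw [hG0, map_zero, zero_add] at hG₂
  obtain ⟨F', G', hc', hF'⟩ := exists_clean p e
    (monomial a' 1 * (ε₁ * chart i t ε) ^ p ^ e + monomial b' 1 * (V₁ * chart i t V))
  refine ⟨⟨F', insert i (S.exc.filter fun j => t j = 0)⟩, ⟨hq, hc', i, t,
    G₂ - G' - G₁ * chart i t ε, ?_, rfl⟩, hc', ε₁ * chart i t ε, V₁ * chart i t V, G', ?_, ?_, hF'⟩
  · have hch : chart i t S.F + X i ^ p ^ e * (G₂ - G' - G₁ * chart i t ε) ^ p ^ e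
        = X i ^ p ^ e * F' := by
      have h3 := congrArg (chart i t) hFG
      simp only [map_add, map_mul, map_pow] at h3
      rw [h1, h2, hG₂] at h3
      rw [sub_pow_expChar_pow, sub_pow_expChar_pow]
      rw [mul_pow] at hF' h3
      rw [mul_pow]
      linear_combination h3 - X i ^ p ^ e * hF'
    unfold equation
    rw [map_add, map_pow, blowupChart_rename]
    simp only [blowupChart, aeval_X]
    rw [mul_pow, add_pow_expChar_pow, ← map_pow]
    have h4 := congrArg (rename (some : Fin n → Option (Fin n))) hch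
    simp only [map_add, map_mul, map_pow, rename_X] at h4 ⊢
    linear_combination h4
  · rw [map_mul, constantCoeff_chart]; exact mul_ne_zero hε₁ hε
  · rw [map_mul, constantCoeff_chart]; exact mul_ne_zero hV₁ hV

end Pool.Agent.MP_19ffc6_ag.Residual
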